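import Pool.Agent.helper69.AD.GS1

open scoped MatrixGroups LinearAlgebra.Projectivization
open Matrix UpperHalfPlane

namespace AdSBend

noncomputable section

theorem BD7_eq {u v : Fin 2 → ℝ} (hu : u ≠ 0) (hv : v ≠ 0) :
    (Projectivization.mk ℝ u hu : Bd) = Projectivization.mk ℝ v hv ↔ dt u v = 0 := by
  rw [Projectivization.mk_eq_mk_iff']
  constructor
  · rintro ⟨a, rfl⟩
    unfold dt
    simp only [Pi.smul_apply, smul_eq_mul]
    ring
  · intro h
    unfold dt at h
    by_cases h0 : v 0 = 0
    · have h1 : v 1 ≠ 0 := by
        intro h1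
        apply hv
        funext i
        fin_cases i
        · exact h0
        · exact h1
      refine ⟨u 1 / v 1, ?_⟩
      funext i
      fin_cases i
      · simp only [Fin.zero_eta, Pi.smul_apply, smul_eq_mul]
        rw [h0] at h ⊢
        have : u 0 = 0 := by
          rcases mul_eq_zero.mp (by linarith : u 0 * v 1 = 0) with h2 | h2
          · exact h2
          · exact absurd h2 h1
        rw [this, mul_zero]
      · simp only [Fin.mk_one, Pi.smul_apply, smul_eq_mul]
        exact div_mul_cancel₀ _ h1
    · refine ⟨u 0 / v 0, ?_⟩
      funext i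
      fin_cases i
      · simp only [Fin.zero_eta, Pi.smul_apply, smul_eq_mul]
        exact div_mul_cancel₀ _ h0
      · simp only [Fin.mk_one, Pi.smul_apply, smul_eq_mul]
        rw [div_mul_eq_mul_div, div_eq_iff h0]
        linarith

theorem BD7_smul_vec (g : SL(2, ℝ)) (v : Fin 2 → ℝ) (i : Fin 2) :
    (g • v) i = g.1 i 0 * v 0 + g.1 i 1 * v 1 := by
  have : g • v = g.1 *ᵥ v := rfl
  rw [this, Matrix.mulVec, dotProduct, Fin.sum_univ_two]

theorem BD7_cover (c : Bd) : c = bInf ∨ ∃ t, c = bPt t := by
  induction c using Projectivization.ind with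
  | h v hv =>
    by_cases h1 : v 1 = 0
    · left
      unfold bInf
      rw [BD7_eq]
      simp [dt, h1]
    · right
      refine ⟨v 0 / v 1, ?_⟩
      unfold bPt
      rw [BD7_eq]
      simp only [dt, Matrix.cons_val_zero, Matrix.cons_val_one]
      rw [mul_one, mul_div_cancel₀ _ h1, sub_self]

theorem BD7_pow3 (s t u : ℝ) : 0 < (s - t) * (t - u) * (u - s) ↔
    (s < t ∧ t < u) ∨ (t < u ∧ u < s) ∨ (u < s ∧ s < t) := by
  constructor
  · intro h
    rcases lt_trichotomy s t with h1 | h1 | h1
    · rcases lt_trichotomy t u with h2 | h2 | h2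
      · exact Or.inl ⟨h1, h2⟩
      · rw [h2] at h; simp at h
      · rcases lt_trichotomy u s with h3 | h3 | h3
        · exact Or.inr (Or.inr ⟨h3, h1⟩)
        · rw [h3] at h; simp at h
        · exfalso
          have : 0 < (t - s) * (t - u) * (u - s) :=
            mul_pos (mul_pos (by linarith) (by linarith)) (by linarith)
          linarith
    · rw [h1] at h; simp at h
    · rcases lt_trichotomy t u with h2 | h2 | h2
      · rcases lt_trichotomy u s with h3 | h3 | h3
        · exact Or.inr (Or.inl ⟨h2, h3⟩)
        · rw [h3] at h; simp at h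
        · exfalso
          have : 0 < (s - t) * (u - t) * (u - s) :=
            mul_pos (mul_pos (by linarith) (by linarith)) (by linarith)
          linarith
      · rw [h2] at h; simp at h
      · exfalso
        have : 0 < (s - t) * (t - u) * (s - u) :=
          mul_pos (mul_pos (by linarith) (by linarith)) (by linarith)
        linarith
  · rintro (⟨h1, h2⟩ | ⟨h1, h2⟩ | ⟨h1, h2⟩)
    · have : 0 < (t - s) * (u - t) * (u - s) :=
        mul_pos (mul_pos (by linarith) (by linarith)) (by linarith)
      linarith
    · have : 0 < (s - t) * (u - t) * (s - u) :=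
        mul_pos (mul_pos (by linarith) (by linarith)) (by linarith)
      linarith
    · have : 0 < (t - s) * (t - u) * (s - u) :=
        mul_pos (mul_pos (by linarith) (by linarith)) (by linarith)
      linarith

theorem BD7 (h1 : BD1_stmt) (h2 : BD2_stmt) : BD7_stmt := by
  refine ⟨?_, ?_, ?_, ?_, ?_, ?_, ?_, ?_, ?_⟩
  · intro F p c hF
    obtain ⟨hF1, hF2⟩ := hF
    have hc : c = F • (F⁻¹ • c) := by rw [smul_inv_smul]
    rw [← hF1, ← hF2]
    have e1 : Cyc (F • bInf) c (F • bZero) ↔ Cyc bInf (F⁻¹ • c) bZero := by
      conv_lhs => rw [hc]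
      exact h2 F _ _ _
    have e2 : Cyc (F • bZero) c (F • bInf) ↔ Cyc bZero (F⁻¹ • c) bInf := by
      conv_lhs => rw [hc]
      exact h2 F _ _ _
    rw [e1, e2]
    rcases BD7_cover (F⁻¹ • c) with hi | ⟨t, ht⟩
    · rw [hi]
      unfold bInf bZero
      rw [h1, h1]
      constructor
      · constructor
        · intro h
          simp [dt] at h
        · rintro ⟨t, -, htc⟩
          exfalso
          rw [htc, inv_smul_smul] at hi
          unfold bPt bInf at hi
          rw [BD7_eq] at hi
          simp [dt] at hi
      · constructor
        · intro h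
          simp [dt] at h
        · rintro ⟨t, -, htc⟩
          exfalso
          rw [htc, inv_smul_smul] at hi
          unfold bPt bInf at hi
          rw [BD7_eq] at hi
          simp [dt] at hi
    · rw [ht]
      have hinj : ∀ s : ℝ, c = F • bPt s ↔ s = t := by
        intro s
        constructor
        · intro h
          rw [h, inv_smul_smul] at ht
          unfold bPt at ht
          rw [BD7_eq] at ht
          simp [dt] at ht
          linarith
        · intro h
          rw [h, ← ht, smul_inv_smul]
      constructor
      · unfold bInf bZero bPt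
        rw [h1]
        constructor
        · intro h
          refine ⟨t, ?_, (hinj t).mpr rfl⟩
          simp [dt] at h
          exact h
        · rintro ⟨s, hs, hsc⟩
          have := (hinj s).mp hsc
          subst this
          simp [dt]
          exact hs
      · unfold bInf bZero bPt
        rw [h1]
        constructor
        · intro h
          refine ⟨t, ?_, (hinj t).mpr rfl⟩
          simp [dt] at h
          exact h
        · rintro ⟨s, hs, hsc⟩
          have := (hinj s).mp hsc
          subst this
          simp [dt]
          exact hs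
  · intro s t h
    unfold bPt at h
    rw [BD7_eq] at h
    simp [dt] at h
    linarith
  · intro t h
    unfold bPt bInf at h
    rw [BD7_eq] at h
    simp [dt] at h
  · unfold bPt bZero
    rw [BD7_eq]
    simp [dt]
  · intro s t u
    unfold bPt
    rw [h1, ← BD7_pow3]
    have : dt ![s, 1] ![t, 1] * dt ![t, 1] ![u, 1] * dt ![u, 1] ![s, 1] =
        (s - t) * (t - u) * (u - s) := by
      simp [dt]
    rw [this]
  · intro s t
    unfold bPt bInf
    rw [h1]
    have : dt ![1, 0] ![s, 1] * dt ![s, 1] ![t, 1] * dt ![t, 1] ![1, 0] = t - s := by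
      simp [dt]
    rw [this]
    exact sub_pos
  · intro s t
    unfold bPt
    rw [Projectivization.smul_mk, BD7_eq]
    unfold dt
    rw [BD7_smul_vec, BD7_smul_vec]
    have e : Real.exp (s / 2) = Real.exp (-(s / 2)) * Real.exp s := by
      rw [← Real.exp_add]; congr 1; ring
    simp only [Dm, Matrix.of_apply, Matrix.cons_val_zero, Matrix.cons_val_one]
    rw [e]
    simp
    ring
  · intro s
    constructor
    · unfold bInf
      rw [Projectivization.smul_mk, BD7_eq]
      unfold dt
      rw [BD7_smul_vec, BD7_smul_vec]
      simp [Dm]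
    · unfold bZero
      rw [Projectivization.smul_mk, BD7_eq]
      unfold dt
      rw [BD7_smul_vec, BD7_smul_vec]
      simp [Dm]
  · exact BD7_cover

end

end AdSBend
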