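import Pool.Agent.helper69.AD.GS5

open scoped MatrixGroups LinearAlgebra.Projectivization
open Matrix UpperHalfPlane

namespace AdSBend

noncomputable section

open LeafSystem

theorem FA1_trc_neg (a : SL(2, ℝ)) : trc (-a) = -trc a := by
  unfold trc
  have e : ∀ i j, (-a).1 i j = -(a.1 i j) := fun i j => rfl
  rw [e, e]
  ring

theorem FA1_trc_inv (a : SL(2, ℝ)) : trc a⁻¹ = trc a := by
  unfold trc
  have h : (a⁻¹).1 = !![a.1 1 1, -a.1 0 1; -a.1 1 0, a.1 0 0] := by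
    have h2 : (a⁻¹).1 = Matrix.adjugate a.1 := rfl
    rw [h2, Matrix.adjugate_fin_two]
  rw [h]
  have e1 : (!![a.1 1 1, -a.1 0 1; -a.1 1 0, a.1 0 0] : Matrix (Fin 2) (Fin 2) ℝ) 0 0 = a.1 1 1 := rfl
  have e2 : (!![a.1 1 1, -a.1 0 1; -a.1 1 0, a.1 0 0] : Matrix (Fin 2) (Fin 2) ℝ) 1 1 = a.1 0 0 := rfl
  rw [e1, e2]
  ring

theorem FA1_trc_conj (g a : SL(2, ℝ)) : trc (g * a * g⁻¹) = trc a := by
  have h1 : ∀ b : SL(2, ℝ), trc b = b.1.trace := by
    intro b
    unfold trc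
    rw [Matrix.trace_fin_two]
  rw [h1, h1]
  have e : (g * a * g⁻¹).1 = (g.1 * a.1) * (g⁻¹).1 := rfl
  rw [e, Matrix.trace_mul_comm, ← Matrix.mul_assoc]
  have e2 : (g⁻¹).1 * g.1 = (g⁻¹ * g).1 := rfl
  rw [e2, inv_mul_cancel]
  have e3 : ((1 : SL(2, ℝ))).1 = (1 : Matrix (Fin 2) (Fin 2) ℝ) := rfl
  rw [e3, Matrix.one_mul]

theorem FA1_len_congr {a b : SL(2, ℝ)} (h : |trc a| = |trc b|) : len a = len b := by
  unfold len
  rw [h]

theorem FA1_peq_pos (a : SL(2, ℝ)) : PEq a (pos a) := by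
  unfold pos PEq
  split_ifs
  · exact Or.inl rfl
  · right; rw [neg_neg]

theorem FA1_len_pos {a : SL(2, ℝ)} (h : 2 < |trc a|) : 0 < len a := by
  unfold len
  have h1 : 0 ≤ Real.sqrt (|trc a| ^ 2 - 4) := Real.sqrt_nonneg _
  have h2 : 1 < (|trc a| + Real.sqrt (|trc a| ^ 2 - 4)) / 2 := by linarith
  have := Real.log_pos h2
  linarith

theorem FA1_pos_neg {a : SL(2, ℝ)} (h : 2 < |trc a|) : pos (-a) = pos a := by
  unfold pos
  rw [FA1_trc_neg]
  by_cases h0 : 0 ≤ trc a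
  · rw [abs_of_nonneg h0] at h
    rw [if_neg (by linarith), if_pos h0, neg_neg]
  · rw [if_pos (by linarith), if_neg h0]

theorem FA1_pos_conj (g a : SL(2, ℝ)) : pos (g * a * g⁻¹) = g * pos a * g⁻¹ := by
  unfold pos
  rw [FA1_trc_conj]
  split_ifs
  · rfl
  · rw [mul_neg, neg_mul]

theorem FA1_pos_inv (a : SL(2, ℝ)) : pos a⁻¹ = (pos a)⁻¹ := by
  unfold pos
  rw [FA1_trc_inv]
  split_ifs
  · rfl
  · rw [inv_neg]

theorem FA1_six (a g : SL(2, ℝ)) (h : 2 < |trc a|) :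
    len (g * a * g⁻¹) = len a ∧ len a⁻¹ = len a ∧
    len (-a) = len a ∧ pos (g * a * g⁻¹) = g * pos a * g⁻¹ ∧ pos a⁻¹ = (pos a)⁻¹ ∧
    pos (-a) = pos a ∧ 0 < len a := by
  refine ⟨FA1_len_congr (by rw [FA1_trc_conj]), FA1_len_congr (by rw [FA1_trc_inv]),
    FA1_len_congr (by rw [FA1_trc_neg, abs_neg]), FA1_pos_conj g a, FA1_pos_inv a,
    FA1_pos_neg h, FA1_len_pos h⟩

theorem FA1_peq_eq {a a' : SL(2, ℝ)} (h : 2 < |trc a|) (hp : PEq a' a) :
    pos a' = pos a ∧ len a' = len a := by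
  rcases hp with h1 | h1
  · rw [h1]; exact ⟨rfl, rfl⟩
  · rw [h1]
    exact ⟨FA1_pos_neg h, FA1_len_congr (by rw [FA1_trc_neg, abs_neg])⟩

theorem FA1_conj_peq {F F' : SL(2, ℝ)} (hp : PEq F' F) (M : SL(2, ℝ)) :
    F' * M * F'⁻¹ = F * M * F⁻¹ := by
  rcases hp with h1 | h1
  · rw [h1]
  · rw [h1, inv_neg, neg_mul, neg_mul, mul_neg, neg_neg]

/-- entries of the conjugate of a translation -/
theorem FA1_N01 (l d : ℝ) : (Em d * Dm (-l) * Em (-d)).1 0 1 = Real.sinh d * Real.sinh (l / 2) ∧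
    (Em d * Dm (-l) * Em (-d)).1 1 0 = -(Real.sinh d * Real.sinh (l / 2)) ∧
    (Em d * Dm (-l) * Em (-d)).1 0 0 = Real.cosh (l / 2) - Real.cosh d * Real.sinh (l / 2) ∧
    (Em d * Dm (-l) * Em (-d)).1 1 1 = Real.cosh (l / 2) + Real.cosh d * Real.sinh (l / 2) := by
  have e : (Em d * Dm (-l) * Em (-d)).1 = (Em d).1 * (Dm (-l)).1 * (Em (-d)).1 := rfl
  have hd : d = 2 * (d / 2) := by ring
  have hs : Real.sinh d = 2 * Real.sinh (d / 2) * Real.cosh (d / 2) := by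
    conv_lhs => rw [hd]
    exact Real.sinh_two_mul _
  have hc : Real.cosh d = Real.cosh (d / 2) ^ 2 + Real.sinh (d / 2) ^ 2 := by
    conv_lhs => rw [hd]
    exact Real.cosh_two_mul _
  have hcs := Real.cosh_sq (d / 2)
  have e1 : Real.exp (-(-l / 2)) = Real.cosh (l / 2) + Real.sinh (l / 2) := by
    rw [Real.cosh_add_sinh]; congr 1; ring
  have e2 : Real.exp (-l / 2) = Real.cosh (l / 2) - Real.sinh (l / 2) := by
    rw [Real.cosh_sub_sinh]; congr 1; ring
  have e3 : Real.cosh (-d / 2) = Real.cosh (d / 2) := by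
    rw [neg_div, Real.cosh_neg]
  have e4 : Real.sinh (-d / 2) = -Real.sinh (d / 2) := by
    rw [neg_div, Real.sinh_neg]
  rw [e]
  simp only [Em, Dm, Matrix.mul_apply, Fin.sum_univ_two, Matrix.of_apply, Matrix.cons_val_zero,
    Matrix.cons_val_one, Matrix.cons_val', Matrix.empty_val', Matrix.cons_val_fin_one]
  rw [e1, e2, e3, e4, hs, hc]
  refine ⟨by ring, by ring, ?_, ?_⟩
  · linear_combination (Real.cosh (l / 2)) * hcs
  · linear_combination (Real.cosh (l / 2)) * hcs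

theorem FA1 (h0 : FA0_stmt) (h6 : BD6_stmt) (h8 : BD8_stmt) : FA1_stmt := by
  obtain ⟨hDD, hD0, hDi, hEE, hE0, hEi, hRR, hRi, hRD, hRE⟩ := h0
  obtain ⟨-, -, h63, -, -, -, -⟩ := h6
  obtain ⟨h81, -, h83, -, -, -, -, -⟩ := h8
  have hfr : ∀ (a F : SL(2, ℝ)), 2 < |trc a| → pos a = F * Dm (len a) * F⁻¹ →
      Attracts a (F • bInf, F • bZero) := by
    intro a F ha hF
    rw [h81]
    refine ⟨F, len a, ⟨rfl, rfl⟩, FA1_len_pos ha, ?_⟩
    rw [← hF]
    exact FA1_peq_pos a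
  refine ⟨?_, ?_, ?_, ?_, ?_, ?_⟩
  · intro a x F F' ha hx hF hF'
    obtain ⟨d, hd, hF1, hF2⟩ := hF
    obtain ⟨d', hd', hF1', hF2'⟩ := hF'
    have hA := hfr a F ha hF1
    have hA' := hfr a F' ha hF1'
    have hp := h83 a _ _ hA hA'
    obtain ⟨t, ht⟩ := h63 F F' (F • bInf, F • bZero) ⟨rfl, rfl⟩ (by rw [hp]; exact ⟨rfl, rfl⟩)
    -- compare the entries
    have e1 : F' * (Em d' * Dm (-len x) * Em (-d')) * F'⁻¹ =
        (F * Dm t) * (Em d' * Dm (-len x) * Em (-d')) * (F * Dm t)⁻¹ := FA1_conj_peq ht _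
    have e2 : F * (Em d * Dm (-len x) * Em (-d)) * F⁻¹ =
        F' * (Em d' * Dm (-len x) * Em (-d')) * F'⁻¹ := by
      have a1 : F * (Em d * Dm (-len x) * Em (-d)) * F⁻¹ = F * Em d * Dm (-len x) * Em (-d) * F⁻¹ := by
        group
      have a2 : F' * (Em d' * Dm (-len x) * Em (-d')) * F'⁻¹ =
          F' * Em d' * Dm (-len x) * Em (-d') * F'⁻¹ := by
        group
      rw [a1, a2, ← hF2, ← hF2']
    have e3 : Em d * Dm (-len x) * Em (-d) =
        Dm t * (Em d' * Dm (-len x) * Em (-d')) * Dm (-t) := by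
      rw [e1, _root_.mul_inv_rev, hDi] at e2
      have a3 : F * Dm t * (Em d' * Dm (-len x) * Em (-d')) * (Dm (-t) * F⁻¹) =
          F * (Dm t * (Em d' * Dm (-len x) * Em (-d')) * Dm (-t)) * F⁻¹ := by group
      rw [a3] at e2
      exact mul_left_cancel (mul_right_cancel e2)
    have hl := FA1_len_pos hx
    obtain ⟨n1, n2, -, -⟩ := FA1_N01 (len x) d
    obtain ⟨m1, m2, -, -⟩ := FA1_N01 (len x) d'
    have e4 : ∀ (N : SL(2, ℝ)), (Dm t * N * Dm (-t)).1 0 1 = Real.exp t * N.1 0 1 ∧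
        (Dm t * N * Dm (-t)).1 1 0 = Real.exp (-t) * N.1 1 0 := by
      intro N
      have e : (Dm t * N * Dm (-t)).1 = (Dm t).1 * N.1 * (Dm (-t)).1 := rfl
      rw [e]
      have e5 : Real.exp t = Real.exp (t / 2) * Real.exp (t / 2) := by
        rw [← Real.exp_add]; congr 1; ring
      have e6 : Real.exp (-t) = Real.exp (-(t / 2)) * Real.exp (-(t / 2)) := by
        rw [← Real.exp_add]; congr 1; ring
      have e7 : Real.exp (-(-t / 2)) = Real.exp (t / 2) := by congr 1; ring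
      have e8 : Real.exp (-t / 2) = Real.exp (-(t / 2)) := by congr 1; ring
      simp only [Dm, Matrix.mul_apply, Fin.sum_univ_two, Matrix.of_apply, Matrix.cons_val_zero,
        Matrix.cons_val_one, Matrix.cons_val', Matrix.empty_val', Matrix.cons_val_fin_one]
      rw [e5, e6, e7, e8]
      constructor <;> ring
    have hs : 0 < Real.sinh (len x / 2) := Real.sinh_pos_iff.mpr (by linarith)
    have hsd : 0 < Real.sinh d := Real.sinh_pos_iff.mpr hd
    have hsd' : 0 < Real.sinh d' := Real.sinh_pos_iff.mpr hd'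
    have q1 : Real.sinh d * Real.sinh (len x / 2) = Real.exp t * (Real.sinh d' * Real.sinh (len x / 2)) := by
      rw [← n1, ← m1, e3]; exact (e4 _).1
    have q2 : -(Real.sinh d * Real.sinh (len x / 2)) =
        Real.exp (-t) * (-(Real.sinh d' * Real.sinh (len x / 2))) := by
      rw [← n2, ← m2, e3]; exact (e4 _).2
    have q3 : Real.exp t * (Real.sinh d' * Real.sinh (len x / 2)) =
        Real.exp (-t) * (Real.sinh d' * Real.sinh (len x / 2)) := by
      rw [← q1]; linarith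
    have q4 : Real.exp t = Real.exp (-t) := by
      have hne : Real.sinh d' * Real.sinh (len x / 2) ≠ 0 := by positivity
      exact mul_right_cancel₀ hne q3
    have q5 : t = 0 := by
      have := Real.exp_injective q4
      linarith
    rw [q5, hD0, mul_one] at ht
    exact ht
  · intro a x F a' x' F' ha hx hpa hpx hpF hF
    obtain ⟨d, hd, hF1, hF2⟩ := hF
    obtain ⟨p1, p2⟩ := FA1_peq_eq ha hpa
    obtain ⟨r1, r2⟩ := FA1_peq_eq hx hpx
    refine ⟨d, hd, ?_, ?_⟩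
    · rw [p1, p2, FA1_conj_peq hpF]; exact hF1
    · rw [r1, r2]
      have a1 : F' * Em d * Dm (-len x) * Em (-d) * F'⁻¹ =
          F' * (Em d * Dm (-len x) * Em (-d)) * F'⁻¹ := by group
      have a2 : F * Em d * Dm (-len x) * Em (-d) * F⁻¹ =
          F * (Em d * Dm (-len x) * Em (-d)) * F⁻¹ := by group
      rw [a1, FA1_conj_peq hpF, ← a2]
      exact hF2
  · intro a x F g hF
    obtain ⟨d, hd, hF1, hF2⟩ := hF
    have l1 : len (g * a * g⁻¹) = len a := FA1_len_congr (by rw [FA1_trc_conj])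
    have l2 : len (g * x * g⁻¹) = len x := FA1_len_congr (by rw [FA1_trc_conj])
    refine ⟨d, hd, ?_, ?_⟩
    · rw [FA1_pos_conj, l1, hF1]; group
    · rw [FA1_pos_conj, l2, hF2]; group
  · intro a x F p ha hF hp
    obtain ⟨d, hd, hF1, hF2⟩ := hF
    have hA := hfr a F ha hF1
    have := h83 a _ _ hA hp
    rw [← this]
    exact ⟨rfl, rfl⟩
  · intro a x F
    exact Iff.rfl
  · intro a g ha
    exact FA1_six a g ha

end

end AdSBend
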