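import Pool.Agent.helper26.AG.FA1
import Pool.Agent.helper26.AG.BD7

open scoped MatrixGroups LinearAlgebra.Projectivization
open Matrix UpperHalfPlane

namespace AdSBend

noncomputable section

open LeafSystem

theorem FA2_smul_mk (g : SL(2, ℝ)) (v : Fin 2 → ℝ) (hv : v ≠ 0) (w : Fin 2 → ℝ) (hw : w ≠ 0)
    (h : dt (g • v) w = 0) :
    g • (Projectivization.mk ℝ v hv : Bd) = Projectivization.mk ℝ w hw := by
  have e : g • (Projectivization.mk ℝ v hv : Bd) =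
      Projectivization.mk ℝ (g • v) ((smul_ne_zero_iff_ne g).mpr hv) := rfl
  rw [e, BD7_eq]
  exact h

/-- the matrix of the second axis in a seam frame -/
def FA2_N (d : ℝ) : Matrix (Fin 2) (Fin 2) ℝ := !![-Real.cosh d, Real.sinh d; -Real.sinh d, Real.cosh d]

theorem FA2_EDE (l d : ℝ) : (Em d * Dm (-l) * Em (-d)).1 =
    Real.cosh (l / 2) • (1 : Matrix (Fin 2) (Fin 2) ℝ) + Real.sinh (l / 2) • FA2_N d := by
  obtain ⟨n1, n2, n3, n4⟩ := FA1_N01 l d
  ext i j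
  fin_cases i <;> fin_cases j
  · simp only [Fin.zero_eta, Fin.isValue]
    rw [n3]
    simp [FA2_N]
    ring
  · simp only [Fin.zero_eta, Fin.isValue, Fin.mk_one]
    rw [n1]
    simp [FA2_N]
    ring
  · simp only [Fin.zero_eta, Fin.isValue, Fin.mk_one]
    rw [n2]
    simp [FA2_N]
    ring
  · simp only [Fin.isValue, Fin.mk_one]
    rw [n4]
    simp [FA2_N]
    ring

theorem FA2_D (l : ℝ) : (Dm l).1 =
    Real.cosh (l / 2) • (1 : Matrix (Fin 2) (Fin 2) ℝ) + Real.sinh (l / 2) • hM := by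
  have e1 : Real.exp (l / 2) = Real.cosh (l / 2) + Real.sinh (l / 2) := by
    rw [Real.cosh_add_sinh]
  have e2 : Real.exp (-(l / 2)) = Real.cosh (l / 2) - Real.sinh (l / 2) := by
    rw [Real.cosh_sub_sinh]
  ext i j
  fin_cases i <;> fin_cases j
  · simp [Dm, hM]
  · simp [Dm, hM]
  · simp [Dm, hM]
  · simp only [Dm, hM, Fin.mk_one, Fin.isValue, Matrix.of_apply, Matrix.cons_val_one,
      Matrix.cons_val', Matrix.empty_val', Matrix.cons_val_fin_one, Matrix.add_apply,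
      Matrix.smul_apply, Matrix.one_apply_eq, smul_eq_mul]
    rw [e2]
    ring

theorem FA2_conj_smul (F : SL(2, ℝ)) (c s : ℝ) (N : Matrix (Fin 2) (Fin 2) ℝ) :
    F.1 * (c • (1 : Matrix (Fin 2) (Fin 2) ℝ) + s • N) * (F⁻¹).1 =
      c • (1 : Matrix (Fin 2) (Fin 2) ℝ) + s • (F.1 * N * (F⁻¹).1) := by
  have e3 : F.1 * (F⁻¹).1 = (1 : Matrix (Fin 2) (Fin 2) ℝ) := by
    have : F.1 * (F⁻¹).1 = (F * F⁻¹).1 := rfl
    rw [this, mul_inv_cancel]; rfl
  rw [Matrix.mul_add, Matrix.add_mul, Matrix.mul_smul, Matrix.smul_mul, Matrix.mul_one, e3,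
    Matrix.mul_smul, Matrix.smul_mul]

/-- entries of a conjugate of a traceless matrix -/
theorem FA2_w (F : SL(2, ℝ)) (N : Matrix (Fin 2) (Fin 2) ℝ) (hN : N 1 1 = -N 0 0) :
    (F.1 * N * (F⁻¹).1) 0 1 - (F.1 * N * (F⁻¹).1) 1 0 =
      (F.1 0 0 ^ 2 * N 0 1 - 2 * F.1 0 0 * F.1 0 1 * N 0 0 - F.1 0 1 ^ 2 * N 1 0) +
      (F.1 1 0 ^ 2 * N 0 1 - 2 * F.1 1 0 * F.1 1 1 * N 0 0 - F.1 1 1 ^ 2 * N 1 0) := by
  have h : (F⁻¹).1 = !![F.1 1 1, -F.1 0 1; -F.1 1 0, F.1 0 0] := by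
    have h2 : (F⁻¹).1 = Matrix.adjugate F.1 := rfl
    rw [h2, Matrix.adjugate_fin_two]
  rw [h]
  simp only [Matrix.mul_apply, Fin.sum_univ_two, Matrix.of_apply, Matrix.cons_val_zero,
    Matrix.cons_val_one, Matrix.cons_val', Matrix.empty_val', Matrix.cons_val_fin_one]
  rw [hN]
  ring

theorem FA2_det (F : SL(2, ℝ)) : F.1 0 0 * F.1 1 1 - F.1 0 1 * F.1 1 0 = 1 := by
  have := F.2
  rw [Matrix.det_fin_two] at this
  exact this

theorem FA2_w_pos (F : SL(2, ℝ)) (N : Matrix (Fin 2) (Fin 2) ℝ) (hN : N 1 1 = -N 0 0)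
    (hd : N 0 0 ^ 2 + N 0 1 * N 1 0 < 0) (hp : 0 < N 0 1) :
    0 < (F.1 * N * (F⁻¹).1) 0 1 - (F.1 * N * (F⁻¹).1) 1 0 := by
  rw [FA2_w F N hN]
  have hdet := FA2_det F
  have q : ∀ a b : ℝ, 0 ≤ a ^ 2 * N 0 1 - 2 * a * b * N 0 0 - b ^ 2 * N 1 0 := by
    intro a b
    have h1 : N 0 1 * (a ^ 2 * N 0 1 - 2 * a * b * N 0 0 - b ^ 2 * N 1 0) =
        (a * N 0 1 - b * N 0 0) ^ 2 - b ^ 2 * (N 0 0 ^ 2 + N 0 1 * N 1 0) := by ring
    have h2 : 0 ≤ N 0 1 * (a ^ 2 * N 0 1 - 2 * a * b * N 0 0 - b ^ 2 * N 1 0) := by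
      rw [h1]
      nlinarith [sq_nonneg (a * N 0 1 - b * N 0 0), sq_nonneg b, mul_nonneg (sq_nonneg b) (by linarith : 0 ≤ -(N 0 0 ^ 2 + N 0 1 * N 1 0))]
    exact nonneg_of_mul_nonneg_right h2 hp
  have q1 : ∀ a b : ℝ, ¬ (a = 0 ∧ b = 0) → 0 < a ^ 2 * N 0 1 - 2 * a * b * N 0 0 - b ^ 2 * N 1 0 := by
    intro a b hab
    have h1 : N 0 1 * (a ^ 2 * N 0 1 - 2 * a * b * N 0 0 - b ^ 2 * N 1 0) =
        (a * N 0 1 - b * N 0 0) ^ 2 - b ^ 2 * (N 0 0 ^ 2 + N 0 1 * N 1 0) := by ring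
    have h2 : 0 < N 0 1 * (a ^ 2 * N 0 1 - 2 * a * b * N 0 0 - b ^ 2 * N 1 0) := by
      rw [h1]
      by_cases hb : b = 0
      · have ha : a ≠ 0 := fun h => hab ⟨h, hb⟩
        rw [hb]
        have : 0 < (a * N 0 1) ^ 2 := by positivity
        nlinarith
      · have hb2 : 0 < b ^ 2 := by positivity
        nlinarith [sq_nonneg (a * N 0 1 - b * N 0 0), mul_pos hb2 (by linarith : 0 < -(N 0 0 ^ 2 + N 0 1 * N 1 0))]
    exact (mul_pos_iff_of_pos_left hp).mp h2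
  have h1 : ¬ (F.1 0 0 = 0 ∧ F.1 0 1 = 0) := by
    rintro ⟨h1, h2⟩
    rw [h1, h2] at hdet
    simp at hdet
  have := q1 _ _ h1
  have := q (F.1 1 0) (F.1 1 1)
  linarith

/-- the sign is invariant under conjugation -/
theorem FA2_w_iff (F : SL(2, ℝ)) (N : Matrix (Fin 2) (Fin 2) ℝ) (hN : N 1 1 = -N 0 0)
    (hd : N 0 0 ^ 2 + N 0 1 * N 1 0 < 0) :
    (F.1 * N * (F⁻¹).1) 0 1 - (F.1 * N * (F⁻¹).1) 1 0 ≠ 0 ∧
    (0 < (F.1 * N * (F⁻¹).1) 0 1 - (F.1 * N * (F⁻¹).1) 1 0 ↔ 0 < N 0 1) := by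
  rcases lt_trichotomy 0 (N 0 1) with h | h | h
  · have := FA2_w_pos F N hN hd h
    exact ⟨this.ne', fun _ => h, fun _ => this⟩
  · rw [← h] at hd
    nlinarith [sq_nonneg (N 0 0)]
  · have h2 := FA2_w_pos F (-N) (by simp [hN]) (by simpa using hd) (by simpa using h)
    have e : F.1 * (-N) * (F⁻¹).1 = -(F.1 * N * (F⁻¹).1) := by
      rw [Matrix.mul_neg, Matrix.neg_mul]
    rw [e] at h2
    simp only [Matrix.neg_apply] at h2
    refine ⟨by intro h3; linarith, fun h3 => by linarith, fun h3 => by linarith⟩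

theorem FA2_peq_refl (a : SL(2, ℝ)) : PEq a a := Or.inl rfl

/-- frames of the two axes in a seam frame -/
theorem FA2_swap (h0 : FA0_stmt) (a x F : SL(2, ℝ)) (d : ℝ) (h : SeamD a x F d) :
    SeamD x a (F * Em d * Rm) d := by
  obtain ⟨hDD, hD0, hDi, hEE, hE0, hEi, hRR, hRi, hRD, hRE⟩ := h0
  obtain ⟨hd, h1, h2⟩ := h
  have hRi2 : Rm * Rm⁻¹ = (1 : SL(2, ℝ)) := mul_inv_cancel _
  have k1 : ∀ s, Rm * Dm s * Rm⁻¹ = Dm (-s) := by
    intro s
    rw [hRD, mul_assoc, hRi2, mul_one]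
  have hEn : Em d * Em (-d) = 1 := by
    rw [hEE, add_neg_cancel, hE0]
  have k2 : Em d * Rm * Em d = Rm := by
    rw [mul_assoc, hRE, ← mul_assoc, hEn, one_mul]
  have k3 : Em (-d) * Rm⁻¹ * Em (-d) = Rm⁻¹ := by
    have := congrArg (fun g => g⁻¹) k2
    simp only [_root_.mul_inv_rev, hEi] at this
    rw [mul_assoc]; exact this
  refine ⟨hd, ?_, ?_⟩
  · rw [h2]
    calc F * Em d * Dm (-len x) * Em (-d) * F⁻¹
        = F * Em d * (Rm * Dm (len x) * Rm⁻¹) * (Em d)⁻¹ * F⁻¹ := by rw [k1, hEi]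
      _ = F * Em d * Rm * Dm (len x) * (F * Em d * Rm)⁻¹ := by group
  · rw [h1]
    have e1 : Dm (len a) = Rm * Dm (-len a) * Rm⁻¹ := by rw [k1, neg_neg]
    calc F * Dm (len a) * F⁻¹
        = F * (Rm * Dm (-len a) * Rm⁻¹) * F⁻¹ := by rw [e1]
      _ = F * ((Em d * Rm * Em d) * Dm (-len a) * (Em (-d) * Rm⁻¹ * Em (-d))) * F⁻¹ := by
          rw [k2, k3]
      _ = F * ((Em d * Rm * Em d) * Dm (-len a) * (Em (-d) * Rm⁻¹ * (Em d)⁻¹)) * F⁻¹ := by
          rw [hEi]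
      _ = F * Em d * Rm * Em d * Dm (-len a) * Em (-d) * (F * Em d * Rm)⁻¹ := by group

theorem FA2_fr (h8 : BD8_stmt) (a F : SL(2, ℝ)) (ha : 2 < |trc a|)
    (hF : pos a = F * Dm (len a) * F⁻¹) : Attracts a (F • bInf, F • bZero) := by
  obtain ⟨h81, -, h83, -, -, -, -, -⟩ := h8
  rw [h81]
  refine ⟨F, len a, ⟨rfl, rfl⟩, FA1_len_pos ha, ?_⟩
  rw [← hF]
  exact FA1_peq_pos a

theorem FA2_coe_inj {a b : SL(2, ℝ)} (h : a.1 = b.1) : a = b := Subtype.ext h

/-- the axis of the second element in a seam frame -/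
theorem FA2_ax2 (t1 : TW1_stmt) (x F : SL(2, ℝ)) (d : ℝ) (hx : 2 < |trc x|)
    (h : pos x = F * Em d * Dm (-len x) * Em (-d) * F⁻¹) :
    axis x = F.1 * FA2_N d * (F⁻¹).1 := by
  obtain ⟨-, -, -, t4⟩ := t1
  obtain ⟨e1, -, -, e4, -⟩ := t4 x hx
  have e5 : (pos x).1 = F.1 * (Em d * Dm (-len x) * Em (-d)).1 * (F⁻¹).1 := by
    rw [h]
    have : F * Em d * Dm (-len x) * Em (-d) * F⁻¹ = F * (Em d * Dm (-len x) * Em (-d)) * F⁻¹ := by
      group
    rw [this]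
    rfl
  rw [FA2_EDE, FA2_conj_smul, e1] at e5
  have e6 := add_left_cancel e5
  have hs : 0 < Real.sinh (len x / 2) := Real.sinh_pos_iff.mpr (by linarith)
  have e7 := congrArg (fun M => (Real.sinh (len x / 2))⁻¹ • M) e6
  simp only [smul_smul, inv_mul_cancel₀ hs.ne', one_smul] at e7
  exact e7

theorem FA2_ax1 (t1 : TW1_stmt) (x F : SL(2, ℝ)) (hx : 2 < |trc x|)
    (h : pos x = F * Dm (len x) * F⁻¹) :
    axis x = F.1 * hM * (F⁻¹).1 := by
  obtain ⟨-, -, -, t4⟩ := t1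
  obtain ⟨e1, -, -, e4, -⟩ := t4 x hx
  have e5 : (pos x).1 = F.1 * (Dm (len x)).1 * (F⁻¹).1 := by
    rw [h]
    rfl
  rw [FA2_D, FA2_conj_smul, e1] at e5
  have e6 := add_left_cancel e5
  have hs : 0 < Real.sinh (len x / 2) := Real.sinh_pos_iff.mpr (by linarith)
  have e7 := congrArg (fun M => (Real.sinh (len x / 2))⁻¹ • M) e6
  simp only [smul_smul, inv_mul_cancel₀ hs.ne', one_smul] at e7
  exact e7

theorem FA2_tr (F : SL(2, ℝ)) (A B : Matrix (Fin 2) (Fin 2) ℝ) :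
    ip (F.1 * A * (F⁻¹).1) (F.1 * B * (F⁻¹).1) = ip A B := by
  unfold ip
  have e2 : (F⁻¹).1 * F.1 = 1 := by
    have : (F⁻¹).1 * F.1 = (F⁻¹ * F).1 := rfl
    rw [this, inv_mul_cancel]; rfl
  have e3 : F.1 * A * (F⁻¹).1 * (F.1 * B * (F⁻¹).1) = F.1 * (A * B) * (F⁻¹).1 := by
    calc F.1 * A * (F⁻¹).1 * (F.1 * B * (F⁻¹).1)
        = F.1 * A * ((F⁻¹).1 * F.1) * B * (F⁻¹).1 := by simp only [Matrix.mul_assoc]
      _ = F.1 * (A * B) * (F⁻¹).1 := by rw [e2, Matrix.mul_one]; simp only [Matrix.mul_assoc]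
  rw [e3, Matrix.trace_mul_comm, ← Matrix.mul_assoc, e2, Matrix.one_mul]

theorem FA2_ip (d : ℝ) : ip hM (FA2_N d) = -Real.cosh d := by
  unfold ip hM FA2_N
  rw [Matrix.trace_fin_two]
  simp [Matrix.mul_apply, Fin.sum_univ_two]

theorem FA2_c1 (t1 : TW1_stmt) (a x : SL(2, ℝ)) (ha : 2 < |trc a|) (hx : 2 < |trc x|) :
    trc (pos a * pos x) = 2 * (Real.cosh (len a / 2) * Real.cosh (len x / 2)
      + Real.sinh (len a / 2) * Real.sinh (len x / 2) * ip (axis a) (axis x)) := by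
  obtain ⟨-, -, -, t4⟩ := t1
  obtain ⟨e1, e2, -, -, -⟩ := t4 a ha
  obtain ⟨f1, f2, -, -, -⟩ := t4 x hx
  have h1 : trc (pos a * pos x) = ((pos a).1 * (pos x).1).trace := by
    unfold trc
    rw [Matrix.trace_fin_two]
    rfl
  rw [h1, e1, f1]
  unfold ip
  rw [Matrix.add_mul, Matrix.mul_add, Matrix.mul_add]
  simp only [Matrix.smul_mul, Matrix.mul_smul, Matrix.one_mul, Matrix.mul_one, Matrix.trace_add,
    Matrix.trace_smul, e2, f2, Matrix.trace_one, Fintype.card_fin, smul_eq_mul]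
  push_cast
  ring

theorem FA2_c2 (t1 : TW1_stmt) (a x F : SL(2, ℝ)) (d : ℝ) (ha : 2 < |trc a|) (hx : 2 < |trc x|)
    (h : SeamD a x F d) : ip (axis a) (axis x) = -Real.cosh d := by
  obtain ⟨hd, h1, h2⟩ := h
  rw [FA2_ax1 t1 a F ha h1, FA2_ax2 t1 x F d hx h2, FA2_tr, FA2_ip]

/-- a traceless matrix of determinant -1 in the standard frame -/
theorem FA2_c3 (h0 : FA0_stmt) (h6 : BD6_stmt) (h8 : BD8_stmt) (t1 : TW1_stmt)
    (a x : SL(2, ℝ)) (ha : 2 < |trc a|) (hx : 2 < |trc x|) (hip : ip (axis a) (axis x) < -1) :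
    (axis a + axis x) 0 1 - (axis a + axis x) 1 0 ≠ 0 ∧
    ((∃ F, IsSeamFrame a x F) ↔ 0 < (axis a + axis x) 0 1 - (axis a + axis x) 1 0) := by
  have t1' := t1
  obtain ⟨-, -, -, t4⟩ := t1
  obtain ⟨hDD, hD0, hDi, hEE, hE0, hEi, hRR, hRi, hRD, hRE⟩ := h0
  obtain ⟨e1, e2, e3, e4, -⟩ := t4 a ha
  obtain ⟨f1, f2, f3, f4, -⟩ := t4 x hx
  obtain ⟨h61, -, -, h64, -, -, -⟩ := h6
  obtain ⟨h81, h82, h83, h84, -, -, -, -⟩ := h8
  -- a frame for a
  obtain ⟨p, hp⟩ := (h84 a).mp ha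
  obtain ⟨F0, hF0⟩ := h61 p hp.1
  have g1 := (h82 a F0 p hp hF0).1
  have g2 : axis a = F0.1 * hM * (F0⁻¹).1 := FA2_ax1 t1' a F0 ha g1
  set Y : Matrix (Fin 2) (Fin 2) ℝ := (F0⁻¹).1 * axis x * F0.1 with hY
  have i1 : (F0⁻¹).1 * F0.1 = 1 := by
    have : (F0⁻¹).1 * F0.1 = (F0⁻¹ * F0).1 := rfl
    rw [this, inv_mul_cancel]; rfl
  have i2 : F0.1 * (F0⁻¹).1 = 1 := by
    have : F0.1 * (F0⁻¹).1 = (F0 * F0⁻¹).1 := rfl
    rw [this, mul_inv_cancel]; rfl
  have hxY : axis x = F0.1 * Y * (F0⁻¹).1 := by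
    rw [hY]
    calc axis x = (F0.1 * (F0⁻¹).1) * axis x * (F0.1 * (F0⁻¹).1) := by
          rw [i2, Matrix.one_mul, Matrix.mul_one]
      _ = F0.1 * ((F0⁻¹).1 * axis x * F0.1) * (F0⁻¹).1 := by simp only [Matrix.mul_assoc]
  have hYtr : Y.trace = 0 := by
    rw [hY, Matrix.trace_mul_comm, ← Matrix.mul_assoc, i2, Matrix.one_mul]; exact f2
  have hYdet : Y.det = -1 := by
    rw [hY, Matrix.det_mul, Matrix.det_mul, f3]
    have d1 : (F0⁻¹).1.det = 1 := (F0⁻¹).2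
    have d2 : F0.1.det = 1 := F0.2
    rw [d1, d2]; norm_num
  have hY11 : Y 1 1 = -Y 0 0 := by
    rw [Matrix.trace_fin_two] at hYtr
    linarith
  have hYq : Y 0 0 ^ 2 + Y 0 1 * Y 1 0 = 1 := by
    rw [Matrix.det_fin_two, hY11] at hYdet
    nlinarith
  have hYip : ip (axis a) (axis x) = Y 0 0 := by
    rw [g2, hxY, FA2_tr]
    unfold ip hM
    rw [Matrix.trace_fin_two]
    simp [Matrix.mul_apply, Fin.sum_univ_two]
    rw [hY11]
    ring
  rw [hYip] at hip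
  set N : Matrix (Fin 2) (Fin 2) ℝ := hM + Y with hN
  have hsum : axis a + axis x = F0.1 * N * (F0⁻¹).1 := by
    rw [g2, hxY, hN, Matrix.mul_add, Matrix.add_mul]
  have n00 : N 0 0 = 1 + Y 0 0 := by simp [hN, hM]
  have n01 : N 0 1 = Y 0 1 := by simp [hN, hM]
  have n10 : N 1 0 = Y 1 0 := by simp [hN, hM]
  have n11 : N 1 1 = -N 0 0 := by
    rw [n00]
    simp [hN, hM]
    rw [hY11]
    ring
  have hNd : N 0 0 ^ 2 + N 0 1 * N 1 0 < 0 := by
    rw [n00, n01, n10]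
    nlinarith
  have key := FA2_w_iff F0 N n11 hNd
  rw [← hsum] at key
  refine ⟨key.1, ?_⟩
  constructor
  · rintro ⟨F, d, hd, k1, k2⟩
    have m1 := FA2_ax1 t1' a F ha k1
    have m2 := FA2_ax2 t1' x F d hx k2
    have m3 : axis a + axis x = F.1 * (hM + FA2_N d) * (F⁻¹).1 := by
      rw [m1, m2, Matrix.mul_add, Matrix.add_mul]
    rw [m3]
    have hsd : 0 < Real.sinh d := Real.sinh_pos_iff.mpr hd
    have hcd : 1 < Real.cosh d := Real.one_lt_cosh.mpr hd.ne'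
    have hcs := Real.cosh_sq d
    apply FA2_w_pos
    · simp [hM, FA2_N]
      ring
    · simp only [hM, FA2_N, Matrix.add_apply, Matrix.of_apply, Matrix.cons_val_zero,
        Matrix.cons_val_one, Matrix.cons_val', Matrix.empty_val', Matrix.cons_val_fin_one]
      nlinarith
    · simp [hM, FA2_N]
      exact hd
  · intro hw
    have hY01 : 0 < Y 0 1 := by
      rw [← n01]; exact key.2.mp hw
    set d := Real.arcosh (-Y 0 0) with hd
    have hcd : Real.cosh d = -Y 0 0 := Real.cosh_arcosh (by linarith)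
    have hd0 : 0 < d := Real.arcosh_pos (by linarith)
    have hsd : 0 < Real.sinh d := Real.sinh_pos_iff.mpr hd0
    have hcs := Real.cosh_sq d
    have hyy : Y 0 1 * Y 1 0 = -(Real.sinh d ^ 2) := by
      rw [hcd] at hcs
      nlinarith
    set s := Real.log (Y 0 1 / Real.sinh d) with hs
    have hes : Real.exp s = Y 0 1 / Real.sinh d := Real.exp_log (by positivity)
    have hq : Y = (Dm s).1 * FA2_N d * (Dm (-s)).1 := by
      have hh : Real.exp (s / 2) * Real.exp (s / 2) = Y 0 1 / Real.sinh d := by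
        rw [← Real.exp_add, ← hes]; congr 1; ring
      have hh2 : Real.exp (s / 2) * Real.exp (-(s / 2)) = 1 := by
        rw [← Real.exp_add]; simp
      have e7 : Real.exp (-(-s / 2)) = Real.exp (s / 2) := by congr 1; ring
      have e8 : Real.exp (-s / 2) = Real.exp (-(s / 2)) := by congr 1; ring
      have hh3 : Real.exp (-(s / 2)) * Real.exp (-(s / 2)) * (Y 0 1 / Real.sinh d) = 1 := by
        rw [← hh]
        calc Real.exp (-(s / 2)) * Real.exp (-(s / 2)) * (Real.exp (s / 2) * Real.exp (s / 2))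
            = (Real.exp (s / 2) * Real.exp (-(s / 2))) * (Real.exp (s / 2) * Real.exp (-(s / 2))) := by ring
          _ = 1 := by rw [hh2, one_mul]
      ext i j
      fin_cases i <;> fin_cases j
      · simp only [FA2_N, Dm, Matrix.mul_apply, Fin.sum_univ_two, Matrix.of_apply,
          Matrix.cons_val_zero, Matrix.cons_val_one, Matrix.cons_val', Matrix.empty_val',
          Matrix.cons_val_fin_one, Fin.zero_eta, Fin.mk_one, Fin.isValue]
        rw [e8, hcd]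
        have h9 : Y 0 0 * (Real.exp (s / 2) * Real.exp (-(s / 2))) = Y 0 0 := by rw [hh2, mul_one]
        linear_combination (-1 : ℝ) * h9
      · simp only [FA2_N, Dm, Matrix.mul_apply, Fin.sum_univ_two, Matrix.of_apply,
          Matrix.cons_val_zero, Matrix.cons_val_one, Matrix.cons_val', Matrix.empty_val',
          Matrix.cons_val_fin_one, Fin.zero_eta, Fin.mk_one, Fin.isValue]
        rw [e7]
        have : Y 0 1 = (Real.exp (s / 2) * Real.exp (s / 2)) * Real.sinh d := by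
          rw [hh, div_mul_cancel₀ _ hsd.ne']
        linear_combination this
      · simp only [FA2_N, Dm, Matrix.mul_apply, Fin.sum_univ_two, Matrix.of_apply,
          Matrix.cons_val_zero, Matrix.cons_val_one, Matrix.cons_val', Matrix.empty_val',
          Matrix.cons_val_fin_one, Fin.zero_eta, Fin.mk_one, Fin.isValue]
        rw [e8]
        have h5 : Y 1 0 = -(Real.sinh d ^ 2) / Y 0 1 := by
          rw [eq_div_iff hY01.ne']; linarith
        have h6 : Real.exp (-(s / 2)) * Real.exp (-(s / 2)) = Real.sinh d / Y 0 1 := by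
          field_simp at hh3 ⊢
          linarith
        rw [h5]
        have h7 : (Real.exp (-(s / 2)) * Real.exp (-(s / 2))) * Real.sinh d = Real.sinh d ^ 2 / Y 0 1 := by
          rw [h6]; ring
        linear_combination h7
      · simp only [FA2_N, Dm, Matrix.mul_apply, Fin.sum_univ_two, Matrix.of_apply,
          Matrix.cons_val_zero, Matrix.cons_val_one, Matrix.cons_val', Matrix.empty_val',
          Matrix.cons_val_fin_one, Fin.zero_eta, Fin.mk_one, Fin.isValue]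
        rw [e7, hcd, hY11]
        have h9 : Y 0 0 * (Real.exp (s / 2) * Real.exp (-(s / 2))) = Y 0 0 := by rw [hh2, mul_one]
        linear_combination h9
    refine ⟨F0 * Dm s, d, hd0, ?_, ?_⟩
    · rw [g1]
      have c1 : Dm s * Dm (len a) * (Dm s)⁻¹ = Dm (len a) := by
        rw [hDD, hDi, hDD]; congr 1; ring
      calc F0 * Dm (len a) * F0⁻¹ = F0 * (Dm s * Dm (len a) * (Dm s)⁻¹) * F0⁻¹ := by rw [c1]
        _ = F0 * Dm s * Dm (len a) * (F0 * Dm s)⁻¹ := by group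
    · apply FA2_coe_inj
      have c2 : F0 * Dm s * Em d * Dm (-len x) * Em (-d) * (F0 * Dm s)⁻¹ =
          F0 * (Dm s * (Em d * Dm (-len x) * Em (-d)) * (Dm s)⁻¹) * F0⁻¹ := by group
      rw [c2, hDi, f1]
      have c3 : (F0 * (Dm s * (Em d * Dm (-len x) * Em (-d)) * Dm (-s)) * F0⁻¹).1 =
          F0.1 * ((Dm s).1 * (Em d * Dm (-len x) * Em (-d)).1 * (Dm (-s)).1) * (F0⁻¹).1 := rfl
      have c4 : (Dm (-s)).1 = ((Dm s)⁻¹).1 := by rw [hDi]
      rw [c3, FA2_EDE, c4, FA2_conj_smul, FA2_conj_smul, ← c4, ← hq, ← hxY]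

theorem FA2_Rm : Rm • bInf = bZero ∧ Rm • bZero = bInf := by
  constructor
  · unfold bInf bZero
    apply FA2_smul_mk
    unfold dt
    rw [BD7_smul_vec, BD7_smul_vec]
    simp [Rm]
  · unfold bInf bZero
    apply FA2_smul_mk
    unfold dt
    rw [BD7_smul_vec, BD7_smul_vec]
    simp [Rm]

theorem FA2_Em (d τ : ℝ) (h0 : τ ≠ 0) (hτ : Real.sinh (d / 2) = τ * Real.cosh (d / 2)) :
    Em d • bZero = bPt τ ∧ Em d • bInf = bPt (1 / τ) := by
  constructor
  · unfold bPt bZero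
    apply FA2_smul_mk
    unfold dt
    rw [BD7_smul_vec, BD7_smul_vec]
    simp [Em]
    linarith
  · unfold bPt bInf
    apply FA2_smul_mk
    unfold dt
    rw [BD7_smul_vec, BD7_smul_vec]
    simp [Em]
    rw [hτ]
    field_simp
    ring

theorem FA2_c4 (h0 : FA0_stmt) (h2 : BD2_stmt) (h4 : BD4_stmt) (h6 : BD6_stmt) (h7 : BD7_stmt)
    (h8 : BD8_stmt) (a x : SL(2, ℝ)) (p q : Bd × Bd) (hp : Attracts a p) (hq : Attracts x q) :
    (∃ F, IsSeamFrame a x F) ↔ Facing p q := by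
  have h0' := h0
  have h8' := h8
  obtain ⟨hDD, hD0, hDi, hEE, hE0, hEi, hRR, hRi, hRD, hRE⟩ := h0
  obtain ⟨h61, -, -, h64, h65, h66, -⟩ := h6
  obtain ⟨h81, h82, h83, h84, -, -, -, -⟩ := h8
  obtain ⟨-, h72, -, h74, -, h76, h77, h78, h79⟩ := h7
  have ha : 2 < |trc a| := (h84 a).mpr ⟨p, hp⟩
  have hx : 2 < |trc x| := (h84 x).mpr ⟨q, hq⟩
  constructor
  · rintro ⟨F, d, hd, k1, k2⟩
    have A1 := FA2_fr h8' a F ha k1
    have hpe := h83 a _ _ hp A1
    obtain ⟨-, k3, -⟩ := FA2_swap h0' a x F d ⟨hd, k1, k2⟩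
    have A2 := FA2_fr h8' x _ hx k3
    have hqe := h83 x _ _ hq A2
    have hth : 0 < Real.sinh (d / 2) := Real.sinh_pos_iff.mpr (by linarith)
    have hch : 0 < Real.cosh (d / 2) := Real.cosh_pos _
    have hsc : Real.sinh (d / 2) < Real.cosh (d / 2) := Real.sinh_lt_cosh _
    set τ := Real.sinh (d / 2) / Real.cosh (d / 2) with hτ
    have hτ0 : 0 < τ := by positivity
    have hτ1 : τ < 1 := by rw [hτ, div_lt_one hch]; exact hsc
    obtain ⟨v1, v2⟩ := FA2_Em d τ hτ0.ne' (by rw [hτ, div_mul_cancel₀ _ hch.ne'])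
    have q1 : q.1 = F • bPt τ := by
      rw [hqe]
      show (F * Em d * Rm) • bInf = _
      rw [mul_smul, mul_smul, FA2_Rm.1, v1]
    have q2 : q.2 = F • bPt (1 / τ) := by
      rw [hqe]
      show (F * Em d * Rm) • bZero = _
      rw [mul_smul, mul_smul, FA2_Rm.2, v2]
    have p1 : p.1 = F • bInf := by rw [hpe]
    have p2 : p.2 = F • bZero := by rw [hpe]
    unfold Facing
    rw [p1, p2, q1, q2, h2, h2, ← h74, h76, h76]
    refine ⟨hτ0, ?_⟩
    rw [lt_div_iff₀ hτ0]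
    nlinarith
  · rintro ⟨f1, f2⟩
    obtain ⟨F0, hF0⟩ := h61 p hp.1
    obtain ⟨F1, F2⟩ := hF0
    obtain ⟨b1, -, -, -, -, -⟩ := h4
    have n1 : p.1 ≠ q.1 := (b1 _ _ _ f2).1
    have n2 : p.1 ≠ q.2 := fun h => (b1 _ _ _ f2).2.2 h.symm
    obtain ⟨t1, ht1⟩ : ∃ t, q.1 = F0 • bPt t := by
      rcases h79 (F0⁻¹ • q.1) with h | ⟨t, h⟩
      · exfalso
        apply n1
        rw [← F1, ← h, smul_inv_smul]
      · exact ⟨t, by rw [← h, smul_inv_smul]⟩
    obtain ⟨t2, ht2⟩ : ∃ t, q.2 = F0 • bPt t := by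
      rcases h79 (F0⁻¹ • q.2) with h | ⟨t, h⟩
      · exfalso
        apply n2
        rw [← F1, ← h, smul_inv_smul]
      · exact ⟨t, by rw [← h, smul_inv_smul]⟩
    rw [← F1, ← F2, ht1, h2, ← h74, h76] at f1
    rw [← F1, ht1, ht2, h2, h76] at f2
    have ht20 : 0 < t2 := f1.trans f2
    set s := Real.log (t1 * t2) / 2 with hs
    have hs1 : Real.exp s * Real.exp s = t1 * t2 := by
      rw [← Real.exp_add]
      have : s + s = Real.log (t1 * t2) := by rw [hs]; ring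
      rw [this, Real.exp_log (by positivity)]
    have hes : 0 < Real.exp s := Real.exp_pos s
    set τ := t1 / Real.exp s with hτ
    have hτ0 : 0 < τ := by positivity
    have hτ1 : τ < 1 := by
      rw [hτ, div_lt_one hes]
      nlinarith
    set F := F0 * Dm s with hF
    have hFq1 : F • bPt τ = q.1 := by
      rw [hF, mul_smul, h77, ht1]
      congr 2
      rw [hτ, mul_div_cancel₀ _ hes.ne']
    have hFq2 : F • bPt (1 / τ) = q.2 := by
      rw [hF, mul_smul, h77, ht2]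
      congr 2
      rw [hτ]
      field_simp
      nlinarith
    set d := Real.log ((1 + τ) / (1 - τ)) with hd
    have hd0 : 0 < d := by
      apply Real.log_pos
      rw [lt_div_iff₀ (by linarith)]
      linarith
    have hexp : Real.exp d = (1 + τ) / (1 - τ) := Real.exp_log (by
      apply div_pos <;> linarith)
    have hth : Real.sinh (d / 2) = τ * Real.cosh (d / 2) := by
      rw [Real.sinh_eq, Real.cosh_eq]
      have e1 : Real.exp (d / 2) * Real.exp (d / 2) = (1 + τ) / (1 - τ) := by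
        rw [← Real.exp_add, ← hexp]; congr 1; ring
      have e2 : Real.exp (-(d / 2)) * Real.exp (d / 2) = 1 := by
        rw [← Real.exp_add]; simp
      have e3 : 0 < Real.exp (d / 2) := Real.exp_pos _
      have e4 : (1 - τ) * (Real.exp (d / 2) * Real.exp (d / 2)) = 1 + τ := by
        rw [e1, mul_div_cancel₀]
        linarith
      have e5 : Real.exp (d / 2) * ((Real.exp (d / 2) - Real.exp (-(d / 2))) / 2) =
          Real.exp (d / 2) * (τ * ((Real.exp (d / 2) + Real.exp (-(d / 2))) / 2)) := by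
        linear_combination (1 / 2 : ℝ) * e4 - (1 / 2) * e2 - (τ / 2) * e2
      exact mul_left_cancel₀ e3.ne' e5
    obtain ⟨v1, v2⟩ := FA2_Em d τ hτ0.ne' hth
    have hfp : IsFrame F p := h64 F0 p s ⟨F1, F2⟩
    have hgq : IsFrame (F * Em d * Rm) q := by
      constructor
      · rw [mul_smul, mul_smul, FA2_Rm.1, v1, hFq1]
      · rw [mul_smul, mul_smul, FA2_Rm.2, v2, hFq2]
    refine ⟨F, d, hd0, (h82 a F p hp hfp).1, ?_⟩
    have hh := (h82 x _ q hq hgq).1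
    rw [hh]
    have k1 : Rm * Dm (len x) * Rm⁻¹ = Dm (-len x) := by
      rw [hRD, mul_assoc, mul_inv_cancel, mul_one]
    calc F * Em d * Rm * Dm (len x) * (F * Em d * Rm)⁻¹
        = F * Em d * (Rm * Dm (len x) * Rm⁻¹) * (Em d)⁻¹ * F⁻¹ := by group
      _ = F * Em d * Dm (-len x) * Em (-d) * F⁻¹ := by rw [k1, hEi]

theorem FA2 (h0 : FA0_stmt) (h2 : BD2_stmt) (h4 : BD4_stmt) (h6 : BD6_stmt) (h7 : BD7_stmt)
    (h8 : BD8_stmt) (t1 : TW1_stmt) : FA2_stmt := by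
  refine ⟨?_, ?_, ?_, ?_, ?_⟩
  · intro a x ha hx
    exact FA2_c1 t1 a x ha hx
  · intro a x F d ha hx h
    exact FA2_c2 t1 a x F d ha hx h
  · intro a x ha hx h
    exact FA2_c3 h0 h6 h8 t1 a x ha hx h
  · intro a x p q hp hq
    exact FA2_c4 h0 h2 h4 h6 h7 h8 a x p q hp hq
  · intro a x F d h
    exact FA2_swap h0 a x F d h

end

end AdSBend
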