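import Pool.Agent.helper69.AD.GS3

open scoped MatrixGroups LinearAlgebra.Projectivization
open Matrix UpperHalfPlane

namespace AdSBend

noncomputable section

open LeafSystem

/-- `h'` is a rotation of `h` -/
def HX2_rot (h h' : (Bd × Bd) × (Bd × Bd) × (Bd × Bd)) : Prop :=
  h' = h ∨ h' = (h.2.1, h.2.2, h.1) ∨ h' = (h.2.2, h.1, h.2.1)

theorem HX2_rot_trans {a b c : (Bd × Bd) × (Bd × Bd) × (Bd × Bd)} (h1 : HX2_rot a b)
    (h2 : HX2_rot b c) : HX2_rot a c := by
  obtain ⟨x, y, z⟩ := a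
  unfold HX2_rot at *
  rcases h1 with h1 | h1 | h1 <;> subst h1 <;> rcases h2 with h2 | h2 | h2 <;> subst h2 <;>
    simp

theorem HX2_rot_symm {a b : (Bd × Bd) × (Bd × Bd) × (Bd × Bd)} (h1 : HX2_rot a b) :
    HX2_rot b a := by
  obtain ⟨x, y, z⟩ := a
  unfold HX2_rot at *
  rcases h1 with h1 | h1 | h1 <;> subst h1 <;> simp

/-- the hexagon beyond the seam `(u, v)` of the hexagon `(u, v, t)` -/
def HX2_H (Γ : Subgroup SL(2, ℝ)) (u v t : Bd × Bd) : (Bd × Bd) × (Bd × Bd) × (Bd × Bd) :=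
  (u, ga (gen Γ u)⁻¹ t, v)

/-- gaps beyond the seam `(p, q)` of the hexagon `(p, q, r)` -/
inductive HX2_G (Γ : Subgroup SL(2, ℝ)) (p q r : Bd × Bd) :
    Bd × Bd → Bd × Bd → Bd × Bd → Prop
  | base : HX2_G Γ p q r p q r
  | left {u v t : Bd × Bd} : HX2_G Γ p q r u v t → HX2_G Γ p q r u (ga (gen Γ u)⁻¹ t) v
  | right {u v t : Bd × Bd} : HX2_G Γ p q r u v t → HX2_G Γ p q r (ga (gen Γ u)⁻¹ t) v u

/-- the class of the hexagons of the tree -/
def HX2_C (Γ : Subgroup SL(2, ℝ)) (p q r : Bd × Bd)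
    (h : (Bd × Bd) × (Bd × Bd) × (Bd × Bd)) : Prop :=
  HX2_rot (p, q, r) h ∨ ∃ p' q' r', HX2_rot (p, q, r) (p', q', r') ∧
    ∃ u v t, HX2_G Γ p' q' r' u v t ∧ HX2_rot (HX2_H Γ u v t) h

/-- closed arc -/
def HX2_In (a b x : Bd) : Prop := x = a ∨ x = b ∨ Cyc a x b

theorem HX2 (h1 : HX1_stmt) (h4 : BD4_stmt) : HX2_stmt := by
  intro Γ hΓ S
  obtain ⟨hrot, hshift, hunshift, -, huniq, -, -⟩ := h1 Γ hΓ S
  obtain ⟨-, cyr, cyn, -, cyt, -⟩ := h4
  -- hexagons beyond seams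
  have hH : ∀ a b c, S.Hex a b c → S.Hex a (ga (gen Γ a)⁻¹ c) b := fun a b c h => hunshift a b c h
  -- rotations of hexagons
  have hrotH : ∀ a b c x y z, S.Hex a b c → HX2_rot (a, b, c) (x, y, z) → S.Hex x y z := by
    intro a b c x y z h hr
    rcases hr with hr | hr | hr
    · simp only [Prod.mk.injEq] at hr
      obtain ⟨e1, e2, e3⟩ := hr
      rw [e1, e2, e3]; exact h
    · simp only [Prod.mk.injEq] at hr
      obtain ⟨e1, e2, e3⟩ := hr
      rw [e1, e2, e3]; exact hrot _ _ _ h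
    · simp only [Prod.mk.injEq] at hr
      obtain ⟨e1, e2, e3⟩ := hr
      rw [e1, e2, e3]; exact hrot _ _ _ (hrot _ _ _ h)
  -- moves of a hexagon
  have hmove : ∀ x y z h', S.Hex x y z → HexMove Γ (x, y, z) h' →
      HX2_rot (x, y, z) h' ∨ HX2_rot (HX2_H Γ x y z) h' ∨ HX2_rot (HX2_H Γ z x y) h' := by
    intro x y z h' hh hm
    rcases hm with h3 | h3 | h3
    · left
      subst h3
      exact Or.inr (Or.inl rfl)
    · right; right
      subst h3
      have e1 : S.Hex x z (ga (gen Γ x) y) := hshift x y z hh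
      have e2 : S.Hex z (ga (gen Γ z)⁻¹ y) x := hH z x y (hrot _ _ _ (hrot _ _ _ hh))
      have e3 : S.Hex x z (ga (gen Γ z)⁻¹ y) := hrot _ _ _ (hrot _ _ _ e2)
      have e4 := huniq x z _ _ e1 e3
      refine Or.inr (Or.inr ?_)
      unfold HX2_H
      simp only [Prod.mk.injEq, true_and]
      exact Prod.mk.injEq _ _ _ _ ▸ (by
        have := e4
        simpa [ga] using this)
    · right; left
      subst h3
      exact Or.inl rfl
  -- moves of a rotated hexagon
  have hmove' : ∀ a b c h h', S.Hex a b c → HX2_rot (a, b, c) h → HexMove Γ h h' →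
      HX2_rot (a, b, c) h' ∨ HX2_rot (HX2_H Γ a b c) h' ∨ HX2_rot (HX2_H Γ b c a) h' ∨
        HX2_rot (HX2_H Γ c a b) h' := by
    intro a b c h h' hh hr hm
    obtain ⟨x, y, z⟩ := h
    have hx := hrotH _ _ _ _ _ _ hh hr
    have h5 := hmove x y z h' hx hm
    rcases hr with hr' | hr' | hr'
    all_goals
      have hr2 := hr'
      simp only [Prod.mk.injEq] at hr2
      obtain ⟨e1, e2, e3⟩ := hr2
      subst e1 e2 e3
    · rcases h5 with h5 | h5 | h5
      · exact Or.inl h5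
      · exact Or.inr (Or.inl h5)
      · exact Or.inr (Or.inr (Or.inr h5))
    · rcases h5 with h5 | h5 | h5
      · exact Or.inl (HX2_rot_trans (Or.inr (Or.inl rfl)) h5)
      · exact Or.inr (Or.inr (Or.inl h5))
      · exact Or.inr (Or.inl h5)
    · rcases h5 with h5 | h5 | h5
      · exact Or.inl (HX2_rot_trans (Or.inr (Or.inr rfl)) h5)
      · exact Or.inr (Or.inr (Or.inr h5))
      · exact Or.inr (Or.inr (Or.inl h5))
  -- gaps belong to hexagons
  have hG : ∀ p q r u v t, S.Hex p q r → HX2_G Γ p q r u v t → S.Hex u v t := by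
    intro p q r u v t hh hg
    induction hg with
    | base => exact hh
    | left _ ih => exact hH _ _ _ ih
    | right _ ih => exact hrot _ _ _ (hH _ _ _ ih)
  -- closure of the class
  have hclos : ∀ p q r h h', S.Hex p q r → HX2_C Γ p q r h → HexMove Γ h h' →
      HX2_C Γ p q r h' := by
    intro p q r h h' hh hC hm
    rcases hC with hC | ⟨p', q', r', hr', u, v, t, hg, hrh⟩
    · rcases hmove' p q r h h' hh hC hm with h5 | h5 | h5 | h5
      · exact Or.inl h5
      · exact Or.inr ⟨p, q, r, Or.inl rfl, p, q, r, HX2_G.base, h5⟩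
      · exact Or.inr ⟨q, r, p, Or.inr (Or.inl rfl), q, r, p, HX2_G.base, h5⟩
      · exact Or.inr ⟨r, p, q, Or.inr (Or.inr rfl), r, p, q, HX2_G.base, h5⟩
    · have hh' := hrotH _ _ _ _ _ _ hh hr'
      have huvt := hG _ _ _ _ _ _ hh' hg
      have hw := hH _ _ _ huvt
      rcases hmove' _ _ _ h h' hw hrh hm with h5 | h5 | h5 | h5
      · exact Or.inr ⟨p', q', r', hr', u, v, t, hg, h5⟩
      · exact Or.inr ⟨p', q', r', hr', _, _, _, HX2_G.left hg, h5⟩
      · exact Or.inr ⟨p', q', r', hr', _, _, _, HX2_G.right hg, h5⟩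
      · -- the parent
        have e1 : S.Hex v (ga (gen Γ v)⁻¹ (ga (gen Γ u)⁻¹ t)) u :=
          hH _ _ _ (hrot _ _ _ (hrot _ _ _ hw))
        have e2 := huniq u v _ _ huvt (hrot _ _ _ (hrot _ _ _ e1))
        have h6 : HX2_rot (u, v, t) h' := by
          refine HX2_rot_trans ?_ h5
          unfold HX2_H
          rw [← e2]
          exact Or.inr (Or.inl rfl)
        cases hg with
        | base => exact Or.inl (HX2_rot_trans hr' h6)
        | @left u' v' t' hg' =>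
          exact Or.inr ⟨p', q', r', hr', _, _, _, hg', h6⟩
        | @right u' v' t' hg' =>
          exact Or.inr ⟨p', q', r', hr', _, _, _, hg',
            HX2_rot_trans (Or.inr (Or.inl rfl)) h6⟩
  have hall : ∀ p q r h, S.Hex p q r → HexConn Γ (p, q, r) h → HX2_C Γ p q r h := by
    intro p q r h hh hc
    induction hc with
    | refl => exact Or.inl (Or.inl rfl)
    | tail _ hm ih => exact hclos _ _ _ _ _ hh ih hm
  -- arcs
  have hcyc : ∀ a b c, S.Hex a b c → Cyc a.1 b.1 c.1 := fun a b c h => h.2.2.2.1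
  have harc : ∀ p q r u v t, S.Hex p q r → HX2_G Γ p q r u v t →
      ∀ x, HX2_In u.1 v.1 x → HX2_In p.1 q.1 x := by
    intro p q r u v t hh hg
    induction hg with
    | base => exact fun x hx => hx
    | @left u v t hg ih =>
      intro x hx
      apply ih
      have hc := hcyc _ _ _ (hH _ _ _ (hG _ _ _ _ _ _ hh hg))
      rcases hx with hx | hx | hx
      · exact Or.inl hx
      · rw [hx]; exact Or.inr (Or.inr hc)
      · exact Or.inr (Or.inr (cyt _ _ _ _ hx hc).1)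
    | @right u v t hg ih =>
      intro x hx
      apply ih
      have hc := hcyc _ _ _ (hH _ _ _ (hG _ _ _ _ _ _ hh hg))
      rcases hx with hx | hx | hx
      · rw [hx]; exact Or.inr (Or.inr hc)
      · exact Or.inr (Or.inl hx)
      · have a1 := cyr _ _ _ (cyr _ _ _ hc)
        have a2 := cyr _ _ _ (cyr _ _ _ hx)
        have a3 := (cyt _ _ _ _ a1 a2).1
        exact Or.inr (Or.inr (cyr _ _ _ a3))
  -- the leaves of a hexagon of the class lie in one sector
  have hsec : ∀ p q r u v w, S.Hex p q r → HexConn Γ (p, q, r) (u, v, w) →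
      ∃ a b c, HX2_rot (p, q, r) (a, b, c) ∧ ((HX2_In a.1 b.1 u.1 ∧ HX2_In a.1 b.1 v.1) ∨
        HX2_rot (p, q, r) (u, v, w)) := by
    intro p q r u v w hh hc
    rcases hall _ _ _ _ hh hc with h5 | ⟨p', q', r', hr', a, b, t, hg, hrh⟩
    · exact ⟨p, q, r, Or.inl rfl, Or.inr h5⟩
    · refine ⟨p', q', r', hr', Or.inl ?_⟩
      have hh' := hrotH _ _ _ _ _ _ hh hr'
      have hc' := hcyc _ _ _ (hH _ _ _ (hG _ _ _ _ _ _ hh' hg))
      have i1 := harc _ _ _ _ _ _ hh' hg a.1 (Or.inl rfl)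
      have i2 := harc _ _ _ _ _ _ hh' hg b.1 (Or.inr (Or.inl rfl))
      have i3 := harc _ _ _ _ _ _ hh' hg (ga (gen Γ a)⁻¹ t).1 (Or.inr (Or.inr hc'))
      unfold HX2_H at hrh
      rcases hrh with hrh | hrh | hrh
      all_goals
        simp only [Prod.mk.injEq] at hrh
        obtain ⟨e1, e2, e3⟩ := hrh
        subst e1 e2 e3
      · exact ⟨i1, i3⟩
      · exact ⟨i3, i2⟩
      · exact ⟨i2, i1⟩
  -- unlinked
  have hun : ∀ x y x' y' : Bd, HX2_In x y x' → HX2_In x y y' → ¬ Linked x y x' y' := by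
    intro x y x' y' hx hy hl
    rcases hl with ⟨-, hl⟩ | ⟨-, hl⟩
    · rcases hy with hy | hy | hy
      · rw [hy] at hl; exact cyn _ _ _ (cyr _ _ _ hl) (cyr _ _ _ hl)
      · rw [hy] at hl; exact cyn _ _ _ hl hl
      · exact cyn _ _ _ hl hy
    · rcases hx with hx | hx | hx
      · rw [hx] at hl; exact cyn _ _ _ (cyr _ _ _ hl) (cyr _ _ _ hl)
      · rw [hx] at hl; exact cyn _ _ _ hl hl
      · exact cyn _ _ _ hl hx
  have hun' : ∀ x y x' y' : Bd, HX2_In y x x' → HX2_In y x y' → ¬ Linked x y x' y' := by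
    intro x y x' y' hx hy hl
    rcases hl with ⟨hl, -⟩ | ⟨hl, -⟩
    · rcases hx with hx | hx | hx
      · rw [hx] at hl; exact cyn _ _ _ hl hl
      · rw [hx] at hl; exact cyn _ _ _ (cyr _ _ _ (cyr _ _ _ hl)) (cyr _ _ _ (cyr _ _ _ hl))
      · exact cyn _ _ _ hl (cyr _ _ _ (cyr _ _ _ hx))
    · rcases hy with hy | hy | hy
      · rw [hy] at hl; exact cyn _ _ _ hl hl
      · rw [hy] at hl; exact cyn _ _ _ (cyr _ _ _ (cyr _ _ _ hl)) (cyr _ _ _ (cyr _ _ _ hl))
      · exact cyn _ _ _ hl (cyr _ _ _ (cyr _ _ _ hy))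
  intro p q r u v w hh hc
  have hpqr := hcyc _ _ _ hh
  have hqrp := cyr _ _ _ hpqr
  have hrpq := cyr _ _ _ hqrp
  -- arcs [q, r] and [r, p] are parts of [q, p]
  have s1 : ∀ x, HX2_In q.1 r.1 x → HX2_In q.1 p.1 x := by
    intro x hx
    rcases hx with hx | hx | hx
    · exact Or.inl hx
    · rw [hx]; exact Or.inr (Or.inr hqrp)
    · exact Or.inr (Or.inr (cyt _ _ _ _ hx hqrp).1)
  have s2 : ∀ x, HX2_In r.1 p.1 x → HX2_In q.1 p.1 x := by
    intro x hx
    rcases hx with hx | hx | hx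
    · rw [hx]; exact Or.inr (Or.inr hqrp)
    · exact Or.inr (Or.inl hx)
    · have a2 := cyr _ _ _ (cyr _ _ _ hx)
      have a3 := (cyt _ _ _ _ hpqr a2).1
      exact Or.inr (Or.inr (cyr _ _ _ a3))
  obtain ⟨a, b, c, hr, hcase⟩ := hsec _ _ _ _ _ _ hh hc
  rcases hcase with ⟨i1, i2⟩ | hcase
  · rcases hr with hr | hr | hr
    all_goals
      simp only [Prod.mk.injEq] at hr
      obtain ⟨e1, e2, e3⟩ := hr
      subst e1 e2 e3
    · exact hun _ _ _ _ i1 i2
    · exact hun' _ _ _ _ (s1 _ i1) (s1 _ i2)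
    · exact hun' _ _ _ _ (s2 _ i1) (s2 _ i2)
  · have j1 : HX2_In q.1 p.1 p.1 := Or.inr (Or.inl rfl)
    have j2 : HX2_In q.1 p.1 q.1 := Or.inl rfl
    have j3 : HX2_In q.1 p.1 r.1 := Or.inr (Or.inr hqrp)
    rcases hcase with hr2 | hr2 | hr2
    all_goals
      simp only [Prod.mk.injEq] at hr2
      obtain ⟨e1, e2, e3⟩ := hr2
      subst e1 e2 e3
    · exact hun' _ _ _ _ j1 j2
    · exact hun' _ _ _ _ j2 j3
    · exact hun' _ _ _ _ j3 j1

end

end AdSBend
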