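import Pool.Agent.helper69.AD.GS3
import Pool.Agent.helper26.AG.BD7

open scoped MatrixGroups LinearAlgebra.Projectivization
open Matrix UpperHalfPlane

namespace AdSBend

noncomputable section

open LeafSystem

theorem HX3_neg (g : SL(2, ℝ)) (x : Bd) : (-g) • x = g • x := by
  induction x using Projectivization.ind with
  | h v hv =>
    rw [Projectivization.smul_mk, Projectivization.smul_mk, BD7_eq]
    unfold dt
    rw [BD7_smul_vec, BD7_smul_vec, BD7_smul_vec, BD7_smul_vec]
    have e : ∀ i j, (-g).1 i j = -(g.1 i j) := fun i j => rfl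
    rw [e, e, e, e]
    ring

theorem HX3_peq {g h : SL(2, ℝ)} (hgh : PEq g h) (x : Bd) : g • x = h • x := by
  rcases hgh with h1 | h1
  · rw [h1]
  · rw [h1, HX3_neg]

theorem HX3_move_symm (Γ : Subgroup SL(2, ℝ))
    (h h' : (Bd × Bd) × (Bd × Bd) × (Bd × Bd)) (hm : HexMove Γ h h') : HexConn Γ h' h := by
  obtain ⟨p, q, r⟩ := h
  rcases hm with h1 | h1 | h1
  · subst h1
    refine Relation.ReflTransGen.tail (Relation.ReflTransGen.single (Or.inl rfl)) ?_
    exact Or.inl rfl
  · subst h1
    refine Relation.ReflTransGen.single (Or.inr (Or.inr ?_))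
    simp only [inv_smul_smul]
  · subst h1
    refine Relation.ReflTransGen.single (Or.inr (Or.inl ?_))
    simp only [smul_inv_smul]

theorem HX3 (h1 : HX1_stmt) (h2 : GM2_stmt) : HX3_stmt := by
  intro Γ hΓ S
  constructor
  · intro h h' hc
    induction hc with
    | refl => exact Relation.ReflTransGen.refl
    | tail _ hm ih => exact (HX3_move_symm Γ _ _ hm).trans ih
  · intro γ hγ p q r u v w hH hc
    have key : ∀ h : (Bd × Bd) × (Bd × Bd) × (Bd × Bd), HexConn Γ (p, q, r) h →
        HexConn Γ (ga γ p, ga γ q, ga γ r) (ga γ h.1, ga γ h.2.1, ga γ h.2.2) := by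
      intro h hh
      induction hh with
      | refl => exact Relation.ReflTransGen.refl
      | @tail a b hab hm ih =>
        refine ih.tail ?_
        obtain ⟨x, y, z⟩ := a
        have hx := ((h1 Γ hΓ S).2.2.2.2.2.2 p q r x y z hH hab).1
        have hcl : IsClosedGeodesic Γ x.1 x.2 := S.closed x hx.1.1
        have hg := (h2 Γ hΓ).2.1 x hcl γ hγ
        have e1 : ∀ c : Bd, gen Γ (γ • x.1, γ • x.2) • (γ • c) = γ • (gen Γ x • c) := by
          intro c
          rw [HX3_peq hg, mul_smul, mul_smul, inv_smul_smul]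
        have e2 : ∀ c : Bd, (gen Γ (γ • x.1, γ • x.2))⁻¹ • (γ • c) = γ • ((gen Γ x)⁻¹ • c) := by
          intro c
          rw [inv_smul_eq_iff, e1, smul_inv_smul]
        rcases hm with h3 | h3 | h3
        · subst h3
          exact Or.inl rfl
        · subst h3
          refine Or.inr (Or.inl ?_)
          simp only [e1]
        · subst h3
          refine Or.inr (Or.inr ?_)
          simp only [e2]
    exact key (u, v, w) hc

end

end AdSBend
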