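import Pool.Agent.helper69.AD.GS1

open scoped MatrixGroups LinearAlgebra.Projectivization
open Matrix UpperHalfPlane

namespace AdSBend

noncomputable section

theorem PT5_side (z : ℍ) : ∃ k : ℝ, 0 < k ∧ side z bInf bZero = -(z.re * k) := by
  obtain ⟨a, ha⟩ := Projectivization.exists_smul_eq_mk_rep ℝ (![1, 0] : Fin 2 → ℝ)
    (by intro h; simpa using congrFun h 0)
  obtain ⟨b, hb⟩ := Projectivization.exists_smul_eq_mk_rep ℝ (![0, 1] : Fin 2 → ℝ)
    (by intro h; simpa using congrFun h 1)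
  have ha' : bInf.rep = (a : ℝ) • ![1, 0] := ha.symm
  have hb' : bZero.rep = (b : ℝ) • ![0, 1] := hb.symm
  have ha0 : (a : ℝ) ≠ 0 := a.ne_zero
  have hb0 : (b : ℝ) ≠ 0 := b.ne_zero
  refine ⟨((a : ℝ) * b) ^ 2, by positivity, ?_⟩
  unfold side dt
  rw [ha', hb']
  simp only [Pi.smul_apply, smul_eq_mul, Matrix.cons_val_zero, Matrix.cons_val_one]
  ring

theorem PT5 (h1 : PT1_stmt) (h2 : BD6_stmt) : PT5_stmt := by
  refine ⟨?_, ?_, ?_⟩
  · intro F p z hF
    obtain ⟨hF1, hF2⟩ := hF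
    obtain ⟨k, hk, hs⟩ := PT5_side z
    obtain ⟨a1, a2, -, -⟩ := h1 F z bInf bZero
    rw [← hF1, ← hF2, a1, a2, hs]
    constructor
    · rw [neg_lt_zero]
      exact mul_pos_iff_of_pos_right hk
    · rw [neg_pos]
      constructor
      · intro h
        by_contra hc
        have : 0 ≤ z.re * k := mul_nonneg (not_lt.mp hc) hk.le
        linarith
      · intro h
        exact mul_neg_of_neg_of_pos h hk
  · intro x y hxy
    obtain ⟨F, hF1, hF2⟩ := h2.1 (x, y) hxy
    refine ⟨F • UpperHalfPlane.I, ?_⟩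
    obtain ⟨k, hk, hs⟩ := PT5_side UpperHalfPlane.I
    obtain ⟨-, -, a3, -⟩ := h1 F UpperHalfPlane.I bInf bZero
    have hF1' : F • bInf = x := hF1
    have hF2' : F • bZero = y := hF2
    rw [hF1', hF2'] at a3
    rw [a3, hs]
    simp
  · intro t z
    rw [UpperHalfPlane.coe_specialLinearGroup_apply]
    have e1 : ((Dm t).1 0 0 : ℝ) = Real.exp (t / 2) := by simp [Dm]
    have e2 : ((Dm t).1 0 1 : ℝ) = 0 := by simp [Dm]
    have e3 : ((Dm t).1 1 0 : ℝ) = 0 := by simp [Dm]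
    have e4 : ((Dm t).1 1 1 : ℝ) = Real.exp (-(t / 2)) := by simp [Dm]
    have e5 : Real.exp t = Real.exp (t / 2) / Real.exp (-(t / 2)) := by
      rw [← Real.exp_sub]; congr 1; ring
    have e6 : ((Real.exp (-(t / 2)) : ℝ) : ℂ) ≠ 0 := by
      exact_mod_cast (Real.exp_pos _).ne'
    simp only [Algebra.algebraMap_self, RingHom.id_apply]
    rw [e1, e2, e3, e4, e5, Complex.ofReal_zero, Complex.ofReal_div, zero_mul, add_zero, zero_add]
    rw [div_mul_eq_mul_div]

end

end AdSBend
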