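import Pool.Agent.helper69.AD.GS6

open scoped MatrixGroups LinearAlgebra.Projectivization
open Matrix UpperHalfPlane
open Pool.Agent.helper73.AD (PS Arc Word sg AData Family PreFamily Cone bs)

namespace AdSBend

noncomputable section

open LeafSystem

theorem XR6 (h3 : XR3_stmt) (h5 : XR5_stmt) (tf2 : TF2_stmt) (fb4 : FB4_stmt) : XR6_stmt := by
  intro Γ hΓ J K _ _ _ _ X hS hS' hcr
  obtain ⟨h51, h52⟩ := h5 Γ hΓ J K X hS hS'
  have hRC : X.Real ⊆ Cone J := by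
    rintro z ⟨f, r, hf, hz⟩
    have hA := tf2 Γ hΓ X.S f r hf
    exact ((fb4 Γ hΓ X.S J X.D r hA).2.2.1 z hz).1
  apply Set.Subset.antisymm hRC
  set Q : Set (J → ℝ) := {q | ∃ p, ((q, p) : PS J) ∈ X.Real} with hQ
  have hall : ∀ q ∈ Q, ∀ p : J → ℝ, ((q, p) : PS J) ∈ X.Real := by
    rintro q ⟨p₀, hp⟩ p
    have := h51 _ hp (p - p₀)
    have e : ((q, p₀) : PS J) + ((0 : J → ℝ), p - p₀) = (q, p) := by
      apply Prod.ext
      · simp
      · simp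
    rw [e] at this
    exact this
  have hTw : TwInv X.w Q := by
    refine ⟨?_, ?_⟩
    · rintro q ⟨p, hp⟩ j
      exact hRC hp j
    · intro q hq p k
      obtain ⟨ζ, hζ0, hζ⟩ := h52 _ (hall q hq p) k
      refine ⟨ζ, hζ0, ?_⟩
      intro s
      obtain ⟨h1, h2⟩ := hζ s
      exact ⟨hRC h1, ⟨(ζ s).2, h1⟩, h2⟩
  have hQne : Q.Nonempty := by
    have hf : IsConjBy Γ (Equiv.refl Bd) (fun γ => γ) :=
      ⟨fun x y z h => h, fun γ _ x => rfl⟩
    have hA := tf2 Γ hΓ X.S _ _ hf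
    obtain ⟨z, hz⟩ := (fb4 Γ hΓ X.S J X.D _ hA).1
    exact ⟨z.1, z.2, _, _, hf, hz⟩
  intro z hz
  have hq := h3 J K X.w hcr Q hTw hQne z.1 hz
  exact hall z.1 hq z.2

end

end AdSBend
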